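import Pool.Agent.J6H24.ST.Fin

/-!
The orders of vanishing at `s = 1` of the L-functions of the Jacobians of the cyclic coverings of
prime degree `ℓ` of the projective line over a function field, in all Galois extensions of degree a
power of `ℓ`.
-/

set_option autoImplicit false
set_option linter.all false
set_option maxHeartbeats 4000000

open Polynomial Pool.Agent.W343.BSD Pool.Agent.J6H24.ST

namespace Pool.Agent.Results.MP_60d5ce_nt.CyclicCoveringTowers

/-- The statement on the coverings `y ^ ℓ = f(x)` of the line over the function fields `K` over `k`: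
the `L`-function over `M` is congruent to the power of the `L`-function over `K`, the order of
vanishing over `M` is bounded, and it is zero under the conditions `IsSimple`. -/
def Coverings (ℓ : ℕ) (k : Type) [Field k] : Prop :=
  ∀ (K : Type) [Field K] [Algebra k K], IsCurveField k K →
    ∀ (A : Finset (FF.Place k K)) (f : K[X]) (c : K) (ι : Type) [Fintype ι] [Nonempty ι]
      (L : ι → Type) [∀ i, Field (L i)] [∀ i, Algebra k (L i)] [∀ i, Algebra K (L i)]
      [∀ i, IsScalarTower k K (L i)] (θ : ∀ i, L i) (a : ι → ℕ), IsCovering ℓ A f c θ a →
    ∃ (PK : ℤ[X]) (PL : ι → ℤ[X]), IsNumerator k K PK ∧ (∀ i, IsNumerator k (L i) (PL i)) ∧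
      ∀ (M : Type) [Field M] [Algebra k M] [Algebra K M] [IsScalarTower k K M] (s : ℕ),
        IsUnramified ℓ s (A : Set (FF.Place k K)) M →
        CongrMod ℓ (LOutside ℓ (above M (A : Set (FF.Place k K))) (f.map (algebraMap K M)))
          (LOutside ℓ (A : Set (FF.Place k K)) f ^ ℓ ^ s) ∧
        OrderAtMost ℓ (above M (A : Set (FF.Place k K))) (f.map (algebraMap K M))
          ((ℓ - 1) * ℓ ^ s) (negTerm ℓ A f PK L) (posTerm ℓ A f PL L) ∧
        (IsSimple ℓ A f L → OrderAtMost ℓ (above M (A : Set (FF.Place k K)))
          (f.map (algebraMap K M)) 0 0 0)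

/-- The statement on the coverings `y ^ ℓ = D(t) (F(x) - t)` of the line over `k(t)`: the order of
vanishing over `M` is bounded, and it is zero if the `P(F(x))`, `P` in `S`, are irreducible. -/
def Pencils (ℓ : ℕ) (k : Type) [Field k] : Prop :=
  ∀ (S : Finset (ClosedPt k)) (F D : k[X]), IsPencil ℓ S F D →
    ∀ (M : Type) [Field M] [Algebra k M] [Algebra (RatFunc k) M]
      [IsScalarTower k (RatFunc k) M] (s : ℕ),
      IsUnramified ℓ s (badSet S (RatFunc.X : RatFunc k)) M →
      OrderAtMost ℓ (badSet S (algebraMap (RatFunc k) M RatFunc.X))
        (pencil F D (algebraMap (RatFunc k) M RatFunc.X)) ((ℓ - 1) * ℓ ^ s)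
        (∑ P ∈ S, lPart ℓ P.1.natDegree)
        (∑ P ∈ S, ∑ R ∈ primes (P.1.comp F), lPart ℓ R.natDegree) ∧
      ((∀ P ∈ S, Irreducible (P.1.comp F)) →
        OrderAtMost ℓ (badSet S (algebraMap (RatFunc k) M RatFunc.X))
          (pencil F D (algebraMap (RatFunc k) M RatFunc.X)) 0 0 0)

/-- **The Birch and Swinnerton-Dyer conjecture for Jacobians of cyclic coverings of the line in
`ℓ`-extensions.**

Let `ℓ` be a prime number and `k` a finite field with `q` elements, `ℓ ∣ q - 1`.

(1) Let `K` be the function field of a curve over `k`, and let `X` be a cyclic covering of degree `ℓ`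
of the projective line over `K`, geometrically irreducible. By Kummer theory it has an equation
`y ^ ℓ = f(x)`, `f = c ∏ p_i ^ a_i`, where the `p_i` are the minimal polynomials of elements `θ_i`, `∏ p_i` is separable and
the `a_i` are prime to `ℓ`; let `L_i = K(θ_i)`, and let `J` be the Jacobian of `X`, of dimension
`(ℓ - 1) (r - 2) / 2`, where `r` is the number of the branch points: the degree of `∏ p_i`, plus one
if `ℓ` does not divide the degree of `f`. Let `A` be a finite set of places of `K` such that
`IsCovering` holds: at the places `v` outside `A` the closure of the branch points in the line over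
the valuation ring of `v` is regular (this is so, for example, if `X` has good reduction, that is if
`c` is a unit and `∏ p_i` has squarefree reduction), and the reduction of `f` is not a constant times
an `ℓ`-th power. Then the normalization of the line over the valuation ring in the function field
of `X` is regular, with geometrically integral fibre, and the Euler factor of `J` at `v` is given by
the zeta function of the fibre (Raynaud). So `LOutside` is the `L`-function of `J` without the Euler
factors at the places in `A`; as these are not zero at `s = 1`, they do not change the order of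
vanishing. The same holds over the extensions of `K` unramified outside `A`.

Let `M` be a Galois extension of `K` of degree `ℓ ^ s` unramified outside `A`. Then

`L_A(J / M, T) ≡ L_A(J / K, T) ^ (ℓ ^ s)` modulo `ℓ`,

and if `L_A(J / M, T) = (1 - q T) ^ m G / H` then

`m ≤ (ℓ - 1) [M : K] B + mu(H)`,
`B = ε (2 - mu_K - ∑_{v ∈ A} lPart(deg v)) + ∑_i (mu_{L_i} - 2 lPart(r_i)) + ∑_{v ∈ A} above_v`,

where `ε` is `2` if `ℓ` divides the degree of `f` and `1` otherwise, `mu_K` and `mu_{L_i}` are the
multiplicities of the root `1` of the numerators of the zeta functions of `K` and `L_i` modulo `ℓ`,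
`r_i` is the degree of the field of constants of `L_i`, `above_v` is the sum of `lPart(deg w)` over
the places `w` of the `L_i` over `v`, and `lPart(n)` is the greatest power of `ℓ` dividing `n`. If the
`K / k`-trace of `J` is zero over `M` the `L`-function is a polynomial and one can take `H = 1`.

If there is only one field `L = L_1`, `ℓ` does not divide the degree of `f` and the class number of
`L`, and there is only one place of `L` over every place in `A`, then `m ≤ mu(H)`. So for `H = 1` the
`L`-function of `J` over `M` does not vanish at `s = 1`, for all these extensions `M`. By Tate's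
inequality the rank of `J(M)` is zero, and by Kato and Trihan the Tate-Shafarevich group of `J` over
`M` is finite and the Birch and Swinnerton-Dyer formula holds, in the whole maximal `ℓ`-extension of
`K` unramified outside `A`.

(2) Let `F` in `k[x]` be a polynomial with `F' ≠ 0` of degree `n` prime to `ℓ`, `S` a finite set of
monic irreducible polynomials over `k` and `D ≠ 0` a polynomial over `k` whose prime factors are in
`S`. Let `J_D` be the Jacobian, of dimension `(ℓ - 1) (n - 1) / 2`, of the curve
`y ^ ℓ = D(t) (F(x) - t)` over `k(t)`; the affine surface is smooth outside the zeros of `D`. Let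
`M` be a Galois extension of `k(t)` of degree `ℓ ^ s` unramified outside `t = ∞` and the places of
`S`. There are no inertia invariants at the places over `t = ∞` (the inertia group permutes the zeros
of `F(x) - t` transitively, and `n` is prime to `ℓ`), hence the `L`-function is a polynomial. The
order of vanishing of `L(J_D / M, s)` at `s = 1` is at most

`(ℓ - 1) [M : k(t)] ∑_{P ∈ S} (∑_R lPart(deg R) - lPart(deg P))`,

where `R` runs through the monic irreducible factors of `P(F(x))`. If `P(F(x))` is irreducible for
all `P` in `S` then `L(J_D / M, s)` does not vanish at `s = 1`, the rank of `J_D(M)` is zero and the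
whole conjecture holds for `J_D` over `M`. For instance, if `F - c` is irreducible for all `c` in a
subset `C` of `k` then this holds over the maximal `ℓ`-extension of `k(t)` unramified outside `∞` and
`C`, and for all the polynomials `D` with zeros in `C`. -/
theorem result (ℓ : ℕ) (hℓ : ℓ.Prime) (k : Type) [Field k] [Finite k]
    (hq : ℓ ∣ Nat.card k - 1) : Coverings ℓ k ∧ Pencils ℓ k := by
  have hp : Fact ℓ.Prime := ⟨hℓ⟩
  have hk1 : 1 ≤ Nat.card k := Nat.card_pos
  have hqz : ((Nat.card k : ℕ) : ZMod ℓ) = 1 := by
    obtain ⟨r, hr⟩ := hq
    have h1 : Nat.card k = ℓ * r + 1 := by omega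
    rw [h1]
    simp
  have heps : ∀ n, 1 + eps ℓ n = infTerm ℓ n := by
    intro n
    unfold eps infTerm
    split_ifs <;> rfl
  constructor
  · intro K _ _ hK A f c ι _ hι L _ _ _ _ θ a hcov
    have hFF : FF.IsFF k K := ⟨hK.essFiniteType, hK.trdeg_eq_one⟩
    have hrK : constDeg k K = 1 := by
      unfold constDeg
      have h1 : algebraicClosure k K = ⊥ := by
        rw [eq_bot_iff]
        intro x hx
        obtain ⟨c, hc⟩ := hK.algClosed x (mem_algebraicClosure_iff.1 hx)
        rw [IntermediateField.mem_bot]
        exact ⟨c, hc⟩
      rw [h1, IntermediateField.finrank_bot]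
    have hfd := hcov.isFam.fd
    have hFFL : ∀ i, FF.IsFF k (L i) := fun i => isFF_of_finite (K := K)
    obtain ⟨PK, hPK, hPK1⟩ := exists_num_rel k K
    choose PL hPL hPL1 using fun i => exists_num_rel k (L i)
    refine ⟨PK, PL, ⟨(S.isZetaNum_iff PK).2 hPK, hPK1.trans (by rw [S.classNumber_eq])⟩,
      fun i => ⟨(S.isZetaNum_iff _).2 (hPL i), (hPL1 i).trans (by rw [S.classNumber_eq])⟩,
      fun M _ _ _ _ s hM => ?_⟩
    have hfdM : FiniteDimensional K M := Module.finite_of_finrank_pos (by
      rw [hM.degree]
      exact pow_pos hℓ.pos s)
    have hFFM : FF.IsFF k M := isFF_of_finite (K := K)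
    have hint : Pool.Agent.J6H24.ST.IsIntegral (A : Set (FF.Place k K)) f := by
      refine ⟨?_, ?_, ?_⟩
      · rw [hcov.eq]
        exact mul_ne_zero (Polynomial.C_ne_zero.2 hcov.ne_zero)
          (Finset.prod_ne_zero_iff.2 fun i _ => pow_ne_zero _ (minpoly.ne_zero (hcov.isFam.int i)))
      · intro v hv
        exact (hcov.facs_eq hv).2.2.regular v hv
      · intro v hv
        exact (hcov.facs_eq hv).2.2.leading v hv
    refine ⟨?_, fun m G H hH hG => ?_, fun hs m G H hH hG => ?_⟩
    · unfold CongrMod
      rw [map_pow]
      exact kida hqz hM hint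
    · have hb := hcov.bound hqz hPK hrK hPL hι hM hH hG
      unfold negTerm posTerm
      simp only [S.deg_eq, ← heps]
      exact hb
    · have hb := hcov.bound hqz hPK hrK hPL hι hM hH hG
      simp only [zero_mul, zero_add, add_zero]
      exact hcov.order_zero (PK := PK) (PL := PL) hι hb hs.single hs.degree
        (fun i => (hPL1 i).trans (by rw [S.classNumber_eq])) hs.classNumber hs.place
  · intro S F D hF M _ _ _ _ s hM
    have hfdM : FiniteDimensional (RatFunc k) M := Module.finite_of_finrank_pos (by
      rw [hM.degree]
      exact pow_pos hℓ.pos s)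
    have hFFM : FF.IsFF k M := isFF_of_finite (K := RatFunc k)
    refine ⟨fun m G H hH hG => ?_, fun hirr m G H hH hG => ?_⟩
    · exact pencil_bound hqz hF.degree hF.ne_zero hF.factors hM hH hG
    · have hb := pencil_bound hqz hF.degree hF.ne_zero hF.factors hM hH hG
      rw [Finset.sum_congr rfl (fun P hP => sum_irreducible hF.degree (hirr P hP)),
        add_comm] at hb
      simp only [zero_mul, zero_add, add_zero]
      exact Nat.le_of_add_le_add_left hb

end Pool.Agent.Results.MP_60d5ce_nt.CyclicCoveringTowers
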