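import Pool.Agent.J6H43.SE.Quad

/-!
# Superelliptic Jacobians over all function fields, and over half of the hyperelliptic ones

Let `K` be the function field of a curve over the finite field `k` with `q` elements, `l` a prime
divisor of `q - 1` and `N = l ^ s`. For the curves `y ^ N = ∏ (x - a i) ^ e i` with `a i` in `K` the
order of vanishing modulo `l` of the `L`-function of the Jacobian over `K` is computed: it depends
only on the places where the `a i` meet and on the multiplicity of the root `1` modulo `l` of the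
numerator of the zeta function of `K`, which is zero if and only if the class number of `K` is prime
to `l`. The curves `y ^ N = (x - h) ^ e 0 ∏ (x - c i) ^ e i`, with `h` in `K` and `c i` in `k`,
are treated in detail. The fields `K = k(t)(√D)` with class number prime to three are at least half
of all of them, also with local conditions on `D`. Over these fields the `L`-functions do not vanish
at `s = 1` for the curves with `N = 3 ^ s`, `h` in `k[t]` such that `h - c i` is irreducible (or a
power of an irreducible polynomial) of degree prime to three and does not split in `k(t)(√D)`.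
-/

set_option autoImplicit false
set_option linter.all false
set_option maxHeartbeats 4000000

open Polynomial Filter Pool.Agent.J6H43.SE
open Pool.Agent.W343.BSD hiding mu

namespace Pool.Agent.Results.MP_60d5ce_nt.HyperellipticBases

section defs

open Classical in
/-- The formula for the order of vanishing modulo `l` of the `L`-functions of the Jacobians over
`K` of the curves `y ^ N = ∏ (x - a i) ^ e i`, `N = l ^ s`, without the Euler factors at the places in
`A`: it is
`(N - 1) ((n - 1) (μ - 2) + ∑ drop v * l ^ v_l(deg v))`, the sum over the bad places `v`. Here `n` is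
the number of the `a i`, and `drop v` is the number of branch points which are lost in the reduction
at `v` (for `v` in `A` all but one). -/
def Orders (k K : Type) [Field k] [Field K] [Algebra k K] (l μ : ℕ) : Prop :=
  ∀ (s n : ℕ), 0 < n → ∀ (a : Fin n → K) (e : Fin n → ℕ), Function.Injective a →
    IsExponents l e → ∀ (A T : Finset (FF.Place k K)) (u r : FF.Place k K → K),
      IsModel (l ^ s) a A T u r →
        OrderEq k l (LOutside (l ^ s) A a e u r fun _ => 1)
          (((l ^ s - 1 : ℕ) : ℤ) * (((n - 1 : ℕ) : ℤ) * ((μ : ℤ) - 2) +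
            ∑ v ∈ T, ((drop (l ^ s) A a u r v * l ^ padicValNat l (S.deg v) : ℕ) : ℤ)))

/-- The formula for the order of vanishing modulo `l` of the `L`-functions of the Jacobians over `K`
of the curves `y ^ N = (x - z) ^ e 0 ∏ (x - c i) ^ e i`, `N = l ^ s`, with `n` different constants
`c i` and a nonconstant `z` in `K`, without the Euler factors at the poles of `z`: it is
`(N - 1) (n μ + n (p(∞) - 1) + ∑ (p(c i) - 1))`, where `p(c)` is the sum of the numbers
`l ^ v_l(deg v)` over the places `v` where `z` has the value `c`. -/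
def PencilOrders (k K : Type) [Field k] [Field K] [Algebra k K] (l μ : ℕ) : Prop :=
  ∀ (s n : ℕ) (z : K) (c : Fin n → k) (e : Fin (n + 1) → ℕ), (∀ x : k, z ≠ algebraMap k K x) →
    Function.Injective c → IsExponents l e → ∀ A : Finset (FF.Place k K),
      (∀ v, v ∈ A ↔ ¬ v.Reg z) →
        OrderEq k l (LOutside (l ^ s) A (pencil z c) e (fun _ => 1) (fun _ => 0) fun _ => 1)
          (((l ^ s - 1 : ℕ) : ℤ) * (n * μ + n * ((poleSum l k z : ℤ) - 1) +
            ∑ i, ((zeroSum l k (z - algebraMap k K (c i)) : ℤ) - 1)))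

/-- `M` is the function field of a curve over `k` and is `K(√u)`. -/
def IsQuadField (k K M : Type) [Field k] [Field K] [Field M] [Algebra k M] [Algebra K M] (u : K) :
    Prop :=
  IsCurveField k M ∧ ∃ θ : M, θ ^ 2 = algebraMap K M u ∧ IntermediateField.adjoin K {θ} = ⊤

/-- The polynomial `D` as an element of `k(t)`. -/
noncomputable abbrev el {k : Type} [Field k] (D : k[X]) : RatFunc k :=
  algebraMap k[X] (RatFunc k) D

open Classical in
/-- The formula for the order of vanishing modulo `l` of the `L`-functions of the Jacobians over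
`M = k(t)(√D)` of the curves `y ^ N = (x - h) ^ e 0 ∏ (x - c i) ^ e i`, `N = l ^ s`, with `n` different
constants `c i` and a polynomial `h` in `k[t]` for which `h - c i` is a constant times a power of the
irreducible polynomial `P i`, of degree prime to `l`: it is `N - 1` times the sum of `n μ` and the
number of the `P i` which split in `M`. -/
def PolynomialOrders (k : Type) [Field k] (D : k[X]) (M : Type) [Field M] [Algebra k M]
    [Algebra (RatFunc k) M] (l μ : ℕ) : Prop :=
  ∀ (s n : ℕ) (h : k[X]) (c : Fin n → k) (P : Fin n → k[X]) (e : Fin (n + 1) → ℕ),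
    IsPolyPencil l h c P → IsExponents l e → ∀ A : Finset (FF.Place k M),
      (∀ v, v ∈ A ↔ ¬ v.Reg (algebraMap (RatFunc k) M (el h))) →
        OrderEq k l (LOutside (l ^ s) A (pencil (algebraMap (RatFunc k) M (el h)) c) e
          (fun _ => 1) (fun _ => 0) fun _ => 1)
          (((l ^ s - 1 : ℕ) : ℤ) * (n * μ + (Finset.univ.filter fun i => SplitsIn (P i) D).card))

/-- The behaviour of a prime in `k(t)(√D)`, or no condition. -/
inductive Behaviour
  | split | inert | ramified | free

/-- The prime `P` is split, inert, ramified in `k(t)(√D)`, for squarefree `D`. -/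
def Behaves {k : Type} [Field k] (P D : k[X]) : Behaviour → Prop
  | .split => ¬ P ∣ D ∧ ∃ h : k[X], P ∣ h ^ 2 - D
  | .inert => ∀ h : k[X], ¬ P ∣ h ^ 2 - D
  | .ramified => P ∣ D
  | .free => True

/-- The squarefree polynomials `D` of degree `n` such that the primes `P` in `T` have the behaviour
`τ P` in `k(t)(√D)`. -/
def Bases {k : Type} [Field k] (T : Finset k[X]) (τ : k[X] → Behaviour) (n : ℕ) : Set k[X] :=
  {D | D.natDegree = n ∧ Squarefree D ∧ ∀ P ∈ T, Behaves P D (τ P)}

/-- The class number of `M = k(t)(√D)` is prime to three and the formulas hold with `l = 3` and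
`μ = 0` for all the curves over `M`. -/
def Good (k : Type) [Field k] (D : k[X]) : Prop :=
  ∀ (M : Type) [Field M] [Algebra k M] [Algebra (RatFunc k) M] [IsScalarTower k (RatFunc k) M],
    IsQuadField k (RatFunc k) M (el D) → ¬ 3 ∣ S.classNumber k M ∧ Orders k M 3 0 ∧
      PencilOrders k M 3 0 ∧ PolynomialOrders k D M 3 0

end defs

section proof

open Pool.Agent.N874

theorem mu_zero_iff {l : ℕ} [hl : Fact l.Prime] {P : ℤ[X]} {h : ℕ}
    (hP : P.map (Int.castRingHom (ZMod l)) ≠ 0) (hP1 : P.eval 1 = h) :
    mu l P = 0 ↔ ¬ l ∣ h := by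
  unfold mu
  have h1 : (P.map (Int.castRingHom (ZMod l))).eval 1 = ((h : ℕ) : ZMod l) := by
    have h2 := eval_map_apply (Int.castRingHom (ZMod l)) (1 : ℤ) (p := P)
    rw [map_one] at h2
    rw [h2, hP1]
    simp
  have h2 : (P.map (Int.castRingHom (ZMod l))).IsRoot 1 ↔ l ∣ h := by
    rw [IsRoot.def, h1, ZMod.natCast_eq_zero_iff]
  rw [← h2, ← rootMultiplicity_pos hP]
  omega

theorem exp_ne {l n : ℕ} {e : Fin n → ℕ} (he : IsExponents l e) (i : Fin n) : e i ≠ 0 := by
  intro h
  exact he.1 i (by rw [h]; exact dvd_zero _)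

theorem orders_of {k K : Type} [Field k] [Finite k] [Field K] [Algebra k K] [FF.IsFF k K] {l : ℕ}
    (hl : l.Prime) (hq : l ∣ Nat.card k - 1) (hc : constDeg k K = 1) {P : ℤ[X]}
    (hP : IsZetaNumRel k K P) : Orders k K l (mu l P) ∧ PencilOrders k K l (mu l P) := by
  classical
  haveI : Fact l.Prime := ⟨hl⟩
  constructor
  · intro s n hn a e _ he A T u r hM
    have h := order_one hq hP hc (s := s) hn A T hM.subset a (exp_ne he) u r hM.good
    have e1 : ∑ v ∈ T, ((drop (l ^ s) A a u r v * l ^ padicValNat l (S.deg v) : ℕ) : ℤ) =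
        ∑ v ∈ T, ((drop (l ^ s) A a u r v * l ^ padicValNat l v.deg : ℕ) : ℤ) :=
      Finset.sum_congr rfl fun v _ => by rw [S.deg_eq]
    rw [e1]
    convert h
  · intro s n z c e hz hc' he A hA
    exact pencil_order' hq hP hc hz hc' (exp_ne he) hA

theorem exists_numerator {k K : Type} [Field k] [Finite k] [Field K] [Algebra k K]
    [FF.IsFF k K] {l : ℕ} (hl : l.Prime) (hq : l ∣ Nat.card k - 1) (hc : constDeg k K = 1) :
    ∃ P : ℤ[X], IsZetaNumRel k K P ∧ IsNumerator k K P ∧
      (mu l P = 0 ↔ ¬ l ∣ S.classNumber k K) := by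
  haveI : Fact l.Prime := ⟨hl⟩
  obtain ⟨P, hP, hP1⟩ := exists_num_rel k K
  have hP1' : P.eval 1 = S.classNumber k K := hP1.trans (by rw [S.classNumber_eq])
  exact ⟨P, hP, ⟨(S.isZetaNum_iff P).2 hP, hP1'⟩, mu_zero_iff (num_ne hP) hP1'⟩

theorem polynomial_of {k : Type} [Field k] [Finite k] (h6 : (6 : k) ≠ 0) {l : ℕ} (hl : l.Prime)
    (hodd : l ≠ 2) (hq : l ∣ Nat.card k - 1) {D : k[X]} (hs : Squarefree D) (ho : Odd D.natDegree)
    {M : Type} [Field M] [Algebra k M] [Algebra (RatFunc k) M] [IsScalarTower k (RatFunc k) M]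
    (hM : IsQuadField k (RatFunc k) M (el D)) {P : ℤ[X]} (hP : IsZetaNumRel k M P) :
    PolynomialOrders k D M l (mu l P) := by
  classical
  haveI : Fact l.Prime := ⟨hl⟩
  obtain ⟨hcf, θ, hθ, htop⟩ := hM
  have hFFM : FF.IsFF k M := ⟨hcf.essFiniteType, hcf.trdeg_eq_one⟩
  have hcM := Pool.Agent.TH958.T4.constDeg_eq_one hcf.algClosed
  intro s n h c Q e hh he A hA
  have hmain := poly_pencil_order h6 hodd hq hs ho hθ htop hcM hP (s := s) hh (exp_ne he) hA
  convert hmain

theorem good_of {k : Type} [Field k] [Finite k] (h6 : (6 : k) ≠ 0) (hq : 3 ∣ Nat.card k - 1)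
    {D : k[X]} (hs : Squarefree D) (ho : Odd D.natDegree) (hno : ¬ DH.HasForm D.natDegree D) :
    Good k D := by
  intro M _ _ _ _ hM
  have hM' := hM
  obtain ⟨hcf, θ, hθ, htop⟩ := hM'
  have hFFM : FF.IsFF k M := ⟨hcf.essFiniteType, hcf.trdeg_eq_one⟩
  have hcM := Pool.Agent.TH958.T4.constDeg_eq_one hcf.algClosed
  have h2 : (2 : k) ≠ 0 := by
    intro h; apply h6
    have : (6 : k) = 2 * 3 := by norm_num
    rw [this, h, zero_mul]
  have h2K : (2 : RatFunc k) ≠ 0 := by
    have : (2 : RatFunc k) = algebraMap k (RatFunc k) 2 := by rw [map_ofNat]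
    rw [this]
    exact (_root_.map_ne_zero _).2 h2
  have hns : ∀ s : RatFunc k, el D ≠ s ^ 2 := Pool.Agent.TH639.B3.not_sq k ho
  obtain ⟨hfd, hgal, hn⟩ := Pool.Agent.TH639.B3.quad_data h2K hθ hns htop
  have h3 : ¬ 3 ∣ S.classNumber k M := fun h => hno (DH.form_of_class (L := M) h6 hs ho hθ hn h)
  obtain ⟨P, hP, -, hmu⟩ := exists_numerator (K := M) Nat.prime_three hq hcM
  have h0 : mu 3 P = 0 := hmu.2 h3
  have h4 := orders_of Nat.prime_three hq hcM hP
  have h5 := polynomial_of h6 Nat.prime_three (by decide) hq hs ho hM hP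
  rw [h0] at h4 h5
  exact ⟨h3, h4.1, h4.2, h5⟩

/-- the translation of the conditions -/
def toCond : Behaviour → DH.Cond
  | .split => .sq
  | .inert => .nsq
  | .ramified => .ex
  | .free => .any

theorem behaves_iff {k : Type} [Field k] {P D : k[X]} (hP : Irreducible P) (hs : Squarefree D)
    (c : Behaviour) : Behaves P D c ↔ DH.Holds P D (toCond c) := by
  have h2 : ¬ P ^ 2 ∣ D := fun h => hP.not_isUnit (hs P (by rw [← sq]; exact h))
  cases c with
  | split => exact Iff.rfl
  | inert => exact Iff.rfl
  | ramified => exact ⟨fun h => ⟨h, h2⟩, fun h => h.1⟩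
  | free => exact ⟨fun _ => h2, fun _ => trivial⟩

theorem bases_eq {k : Type} [Field k] {T : Finset k[X]}
    (hT : ∀ P ∈ T, P.Monic ∧ Irreducible P) (τ : k[X] → Behaviour) (n : ℕ) :
    Bases T τ n = DH.Fam T (fun P => toCond (τ P)) n := by
  ext D
  unfold Bases DH.Fam
  rw [Set.mem_setOf_eq, Set.mem_setOf_eq]
  exact and_congr_right fun _ => and_congr_right fun hs => forall₂_congr fun P hP =>
    behaves_iff (hT P hP).2 hs (τ P)

end proof

/-- Let `k` be a finite field with `q` elements.

(1) Let `K` be the function field of a curve over `k` and `l` a prime divisor of `q - 1`. Let `μ` be the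
multiplicity of the root `1` modulo `l` of the numerator of the zeta function of `K`; it is zero if
and only if the class number of `K` is prime to `l`. For all powers `N` of `l` and all curves
`y ^ N = ∏ (x - a i) ^ e i` with different `a i` in `K` and exponents `e i` which, and whose sum, are
prime to `l`, the order of vanishing of the `L`-function of the Jacobian modulo `l`
is given by the formulas `Orders` and `PencilOrders`.

(2) Let `q` be prime to six, `l` an odd prime divisor of `q - 1`, `D` in `k[t]` squarefree of odd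
degree and `M = k(t)(√D)`. For the curves `y ^ N = (x - h) ^ e 0 ∏ (x - c i) ^ e i` over `M` with
different constants `c i` and a polynomial `h` in `k[t]` for which `h - c i` is a constant times a
power of a prime `P i` of degree prime to `l`, this order is `N - 1` times the sum of `n μ` and the
number of the `P i` which split in `M`.

(3) Let `q` be prime to six and congruent to one modulo three. Let `T` be a finite set of monic
irreducible polynomials over `k` and fix for each of them the behaviour in `k(t)(√D)` (split, inert,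
ramified or no condition). The squarefree polynomials `D` of degree `n` with this behaviour at `T` are
a positive proportion of all the polynomials of degree `n`. For `n` odd, `n → ∞`, at least half of
them (precisely: at least `1 / 2 - ε` of them, for all `ε > 0` and `n ≥ n(ε)`) are `Good`: the class
number of `M = k(t)(√D)` is prime to three, and the formulas of (1) and (2) hold with `l = 3` and
`μ = 0` for all the curves over `M` at once. In particular, the `L`-function of the Jacobian of
`y ^ N = (x - h) ^ e 0 ∏ (x - c i) ^ e i`, `N = 3 ^ s`, over `M` does not vanish at `s = 1`, and its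
value is prime to three, if the `P i` do not split in `M`. -/
theorem result (k : Type) [Field k] [Finite k] :
    (∀ (K : Type) [Field K] [Algebra k K], IsCurveField k K → ∀ l : ℕ, l.Prime →
      l ∣ Nat.card k - 1 → ∃ P : ℤ[X], IsNumerator k K P ∧
        (mu l P = 0 ↔ ¬ l ∣ S.classNumber k K) ∧ Orders k K l (mu l P) ∧
        PencilOrders k K l (mu l P)) ∧
    ((6 : k) ≠ 0 → ∀ l : ℕ, l.Prime → l ≠ 2 → l ∣ Nat.card k - 1 →
      ∀ D : k[X], Squarefree D → Odd D.natDegree → ∀ (M : Type) [Field M] [Algebra k M]
        [Algebra (RatFunc k) M] [IsScalarTower k (RatFunc k) M],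
        IsQuadField k (RatFunc k) M (el D) → ∃ P : ℤ[X], IsNumerator k M P ∧
          (mu l P = 0 ↔ ¬ l ∣ S.classNumber k M) ∧ PolynomialOrders k D M l (mu l P)) ∧
    ((6 : k) ≠ 0 → 3 ∣ Nat.card k - 1 →
      ∀ T : Finset k[X], (∀ P ∈ T, P.Monic ∧ Irreducible P) → ∀ τ : k[X] → Behaviour,
        (∃ c : ℝ, 0 < c ∧ ∀ᶠ n : ℕ in atTop,
          c * (Nat.card k : ℝ) ^ n ≤ ((Bases T τ n).ncard : ℝ)) ∧
        ∀ ε : ℝ, 0 < ε → ∀ᶠ n : ℕ in atTop, Odd n →
          (1 / 2 - ε) * ((Bases T τ n).ncard : ℝ) ≤
            (({D ∈ Bases T τ n | Good k D}.ncard : ℕ) : ℝ)) := by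
  refine ⟨?_, ?_, ?_⟩
  · intro K _ _ hK l hl hq
    have hFF : FF.IsFF k K := ⟨hK.essFiniteType, hK.trdeg_eq_one⟩
    have hc := Pool.Agent.TH958.T4.constDeg_eq_one hK.algClosed
    obtain ⟨P, hP, hP', hmu⟩ := exists_numerator (K := K) hl hq hc
    obtain ⟨h1, h2⟩ := orders_of hl hq hc hP
    exact ⟨P, hP', hmu, h1, h2⟩
  · intro h6 l hl hodd hq D hs ho M _ _ _ _ hM
    have hcf := hM.1
    have hFFM : FF.IsFF k M := ⟨hcf.essFiniteType, hcf.trdeg_eq_one⟩
    have hcM := Pool.Agent.TH958.T4.constDeg_eq_one hcf.algClosed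
    obtain ⟨P, hP, hP', hmu⟩ := exists_numerator (K := M) hl hq hcM
    exact ⟨P, hP', hmu, polynomial_of h6 hl hodd hq hs ho hM hP⟩
  · intro h6 hq T hT τ
    obtain ⟨h1, h2⟩ := Pool.Agent.N874.DH.fam_count h6 hT (fun P => toCond (τ P))
    constructor
    · obtain ⟨c, hc, h⟩ := h1
      refine ⟨c, hc, ?_⟩
      filter_upwards [h] with n hn
      rw [bases_eq hT]
      exact hn
    · intro ε hε
      filter_upwards [h2 ε hε] with n hn ho
      rw [bases_eq hT]
      refine (hn ho).trans ?_
      have hfin := Pool.Agent.N874.DH.Eng.fin_fam Pool.Agent.N874.DH.cnt T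
        (fun P => toCond (τ P)) n
      have hsub : {D ∈ Pool.Agent.N874.DH.Fam T (fun P => toCond (τ P)) n |
          ¬ Pool.Agent.N874.DH.HasForm n D} ⊆
          {D ∈ Pool.Agent.N874.DH.Fam T (fun P => toCond (τ P)) n | Good k D} := by
        rintro D ⟨hD, hno⟩
        refine ⟨hD, ?_⟩
        obtain ⟨e1, e2, -⟩ := hD
        subst e1
        exact good_of h6 hq e2 ho hno
      exact_mod_cast Set.ncard_le_ncard hsub (hfin.subset (Set.sep_subset _ _))

end Pool.Agent.Results.MP_60d5ce_nt.HyperellipticBases
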