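import Pool.Agent.J6H43.SE.Leg2

/-!
# Jacobians with rank equal to the order of vanishing over arbitrary function fields

Let `ℓ` be an odd prime, `p` a prime and `ν ≥ 1` with `ℓ ∣ d = p ^ ν + 1`, and let `k` be a finite
field with `p ^ (2 ν n)` elements. Let `K` be the function field of a curve over `k`, of any genus, and
`h` in `K` not a constant. Let `J` be the Jacobian, of dimension `ℓ - 1`, of
`y ^ ℓ = x ^ (ℓ - 1) (x + 1) (x + h ^ d)` over `K`. The number of linearly independent elements of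
`J(K)` and the order of vanishing of the `L`-function of `J` are compared. If the class number of `K` is
prime to `ℓ` and the function `h` has one pole and takes the value `0` and the `d` values which are
`d`-th roots of unity at one place each, then both are `(ℓ - 1) (p ^ ν - 1)`. For `ℓ = 3` and every
polynomial `h` in `k[t]` such that `h` and the `h - c` with `c ^ d = 1` are irreducible of degree
prime to three this holds over at least half of the fields `k(t)(√D)` in which the polynomials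
`h`, `h - c` do not split.
-/

set_option autoImplicit false
set_option linter.all false
set_option maxHeartbeats 4000000

open Polynomial Filter Pool.Agent.J6H43.SE
open Pool.Agent.TH958.SJ (JacRankGE Good)
open Pool.Agent.W343.BSD hiding mu

namespace Pool.Agent.Results.MP_60d5ce_nt.LegendreBases

section defs

/-- The order of vanishing modulo `ℓ` of the `L`-function of the Jacobian over `K` of
`y ^ ℓ = x ^ (ℓ - 1) (x + 1) (x + h ^ d)` is equal to `r`. The model at the poles of `h` is the one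
obtained from the substitution of `h ^ d x` for `x`. -/
def OrderIs (k : Type) {K : Type} [Field k] [Field K] [Algebra k K] (ℓ d : ℕ) (h : K) (r : ℤ) :
    Prop :=
  (∃ T : Finset (FF.Place k K),
    IsModel ℓ (legPts d h) ∅ T (legU k (d / ℓ) h) (fun _ => 0)) ∧
  OrderEq k ℓ (LOutside ℓ ∅ (legPts d h) (legExp ℓ) (legU k (d / ℓ) h) (fun _ => 0)
    (fun _ => 1)) r

/-- The function `h` has the value `c` at a place `v`, and the order of `h - c` at `v` is not
divisible by `ℓ`. -/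
def TakesValue {k K : Type} [Field k] [Field K] [Algebra k K] (ℓ : ℕ) (h : K) (c : k) : Prop :=
  ∃ v : FF.Place k K, 0 < v.ord (h - algebraMap k K c) ∧
    ¬ (ℓ : ℤ) ∣ v.ord (h - algebraMap k K c)

/-- The function `h` has only one pole and takes the value `0` and the values `c` with `c ^ d = 1` at
one place each; the degrees of these places are prime to `ℓ`, and so are the orders of the zeros of
`h - c`, `c ^ d = 1`. -/
structure IsTotal (ℓ d : ℕ) (k : Type) {K : Type} [Field k] [Field K] [Algebra k K] (h : K) :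
    Prop where
  pole : poleSum ℓ k h = 1
  zero : zeroSum ℓ k h = 1
  root : ∀ c : k, c ^ d = 1 → zeroSum ℓ k (h - algebraMap k K c) = 1 ∧ TakesValue ℓ h c

/-- The Jacobian over `K` of `y ^ ℓ = x ^ (ℓ - 1) (x + 1) (x + h ^ d)` has `r` linearly independent
rational points, and its `L`-function vanishes modulo `ℓ`, hence also in characteristic zero, to order
at most `r`. -/
def RankAndOrder (k : Type) {K : Type} [Field k] [Field K] [Algebra k K] (ℓ d : ℕ) (h : K)
    (r : ℕ) : Prop :=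
  JacRankGE K ℓ (h ^ d) r ∧ OrderIs k ℓ d h r

/-- `M` is the function field of a curve over `k` and is `K(√u)`. -/
def IsQuadField (k K M : Type) [Field k] [Field K] [Field M] [Algebra k M] [Algebra K M] (u : K) :
    Prop :=
  IsCurveField k M ∧ ∃ θ : M, θ ^ 2 = algebraMap K M u ∧ IntermediateField.adjoin K {θ} = ⊤

/-- The squarefree polynomials `D` of degree `n` such that `h` and the `h - c` with `c ^ d = 1` do not
split in `k(t)(√D)`. -/
def Bases {k : Type} [Field k] (d : ℕ) (h : k[X]) (n : ℕ) : Set k[X] :=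
  {D | D.natDegree = n ∧ Squarefree D ∧ ¬ SplitsIn h D ∧
    ∀ c : k, c ^ d = 1 → ¬ SplitsIn (h - C c) D}

/-- Over `M = k(t)(√D)` the class number is prime to `ℓ` and the rank and the order are `r`. -/
def HoldsOver {k : Type} [Field k] (ℓ d : ℕ) (h : k[X]) (r : ℕ) (D : k[X]) : Prop :=
  ∀ (M : Type) [Field M] [Algebra k M] [Algebra (RatFunc k) M] [IsScalarTower k (RatFunc k) M],
    IsQuadField k (RatFunc k) M (algebraMap k[X] (RatFunc k) D) →
      ¬ ℓ ∣ S.classNumber k M ∧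
        RankAndOrder k ℓ d (algebraMap (RatFunc k) M (algebraMap k[X] (RatFunc k) h)) r

end defs

section proof

open Pool.Agent.N874 Pool.Agent.TH958.SJ

theorem mu_zero_iff {l : ℕ} [hl : Fact l.Prime] {P : ℤ[X]} {h : ℕ}
    (hP : P.map (Int.castRingHom (ZMod l)) ≠ 0) (hP1 : P.eval 1 = h) :
    mu l P = 0 ↔ ¬ l ∣ h := by
  unfold mu
  have h1 : (P.map (Int.castRingHom (ZMod l))).eval 1 = ((h : ℕ) : ZMod l) := by
    have h2 := eval_map_apply (Int.castRingHom (ZMod l)) (1 : ℤ) (p := P)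
    rw [map_one] at h2
    rw [h2, hP1]
    simp
  have h2 : (P.map (Int.castRingHom (ZMod l))).IsRoot 1 ↔ l ∣ h := by
    rw [IsRoot.def, h1, ZMod.natCast_eq_zero_iff]
  rw [← h2, ← rootMultiplicity_pos hP]
  omega

theorem exists_numerator {k K : Type} [Field k] [Finite k] [Field K] [Algebra k K]
    [FF.IsFF k K] {l : ℕ} (hl : l.Prime) :
    ∃ P : ℤ[X], IsZetaNumRel k K P ∧ IsNumerator k K P ∧
      (mu l P = 0 ↔ ¬ l ∣ S.classNumber k K) := by
  haveI : Fact l.Prime := ⟨hl⟩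
  obtain ⟨P, hP, hP1⟩ := exists_num_rel k K
  have hP1' : P.eval 1 = S.classNumber k K := hP1.trans (by rw [S.classNumber_eq])
  exact ⟨P, hP, ⟨(S.isZetaNum_iff P).2 hP, hP1'⟩, mu_zero_iff (num_ne hP) hP1'⟩

/-- the lower bound for the rank -/
theorem rank_ge {ℓ p ν : ℕ} (hℓ : ℓ.Prime) (hodd : ℓ ≠ 2) (hp : p.Prime) (hν : 1 ≤ ν)
    (hd : ℓ ∣ p ^ ν + 1) {k : Type} [Field k] [Finite k] {n : ℕ}
    (hcard : Nat.card k = p ^ (2 * ν * n)) {K : Type} [Field K] [Algebra k K] {h : K}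
    (h0 : h ≠ 0) (h1 : h ^ (p ^ ν + 1) ≠ 1) (B : Finset k)
    (hB : ∀ c ∈ B, c ^ (p ^ ν + 1) = 1 ∧ TakesValue ℓ h c) :
    JacRankGE K ℓ (h ^ (p ^ ν + 1)) ((ℓ - 1) * (B.card - 2)) := by
  classical
  haveI : Fact p.Prime := ⟨hp⟩
  haveI : CharP k p := charP_of_card hp hcard
  have hdc : p ^ ν + 1 ∣ Nat.card k - 1 := dvd_card hcard
  obtain ⟨ζ, hζ⟩ := exists_primitive (hd.trans hdc)
  have hneg : (-1 : k) ^ (p ^ ν + 1) = 1 := by
    rcases hp.eq_two_or_odd' with h2 | h2
    · subst h2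
      have : (-1 : k) = 1 := by
        have h3 : ((2 : ℕ) : k) = 0 := CharP.cast_eq_zero k 2
        push_cast at h3
        linear_combination (-1) * h3
      rw [this, one_pow]
    · exact ((h2.pow).add_one).neg_one_pow
  have hc0 : ∀ c : B, c.1 ≠ 0 := by
    intro c hc
    have := (hB c.1 c.2).1
    rw [hc, zero_pow (by omega)] at this
    exact zero_ne_one this
  choose v hv hvl using fun c : B => (hB c.1 c.2).2
  let z : B → k := fun c => -(c.1)⁻¹
  have hz : ∀ c, z c ^ (p ^ ν + 1) = 1 := fun c => by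
    show (-(c.1)⁻¹) ^ (p ^ ν + 1) = 1
    rw [neg_eq_neg_one_mul, mul_pow, hneg, one_mul, inv_pow, (hB c.1 c.2).1, inv_one]
  have hinj : Function.Injective z := by
    intro a b hab
    have : -(a.1)⁻¹ = -(b.1)⁻¹ := hab
    exact Subtype.ext (inv_injective (neg_injective this))
  have e : ∀ c : B, (v c).ord (algebraMap k K (z c) * h + 1) =
      (v c).ord (h - algebraMap k K c.1) := by
    intro c
    have hne : h - algebraMap k K c.1 ≠ 0 := by
      intro h2
      have := hv c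
      rw [h2, (v c).ord_zero] at this
      exact lt_irrefl _ this
    have hzc : z c ≠ 0 := neg_ne_zero.2 (inv_ne_zero (hc0 c))
    have e1 : algebraMap k K (z c) * h + 1 = algebraMap k K (z c) * (h - algebraMap k K c.1) := by
      have e2 : algebraMap k K (z c) * algebraMap k K c.1 = -1 := by
        rw [← map_mul]
        show algebraMap k K (-(c.1)⁻¹ * c.1) = -1
        rw [neg_mul, inv_mul_cancel₀ (hc0 c), map_neg, map_one]
      rw [mul_sub, e2]
      ring
    rw [e1, (v c).ord_mul ((_root_.map_ne_zero _).2 hzc) hne, (v c).ord_const hzc, zero_add]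
  have h2 := jac_rank (k := k) hℓ hodd hp hν hd hζ z hz hinj h h0 h1 v
    (fun c => by rw [e]; exact hv c) (fun c => by rw [e]; exact hvl c)
  rw [Fintype.card_coe] at h2
  exact h2

theorem not_root {k K : Type} [Field k] [Finite k] [Field K] [Algebra k K] [FF.IsFF k K]
    (hc : constDeg k K = 1) {h : K} (hh : ∀ x : k, h ≠ algebraMap k K x) {d : ℕ} (hd : 0 < d) :
    h ^ d ≠ 1 := by
  intro h1
  have hint : IsAlgebraic k h := by
    refine ⟨X ^ d - 1, ?_, ?_⟩
    · rw [← C_1]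
      exact X_pow_sub_C_ne_zero hd 1
    · simp [h1]
  obtain ⟨x, hx⟩ := DH.alg_of_const hc h hint
  exact hh x hx.symm

/-- the order modulo `ℓ` -/
theorem order_is {ℓ p ν : ℕ} (hℓ : ℓ.Prime) (hp : p.Prime) (hν : 1 ≤ ν)
    (hd : ℓ ∣ p ^ ν + 1) {k : Type} [Field k] [Finite k] {n : ℕ}
    (hcard : Nat.card k = p ^ (2 * ν * n)) {K : Type} [Field K] [Algebra k K] [FF.IsFF k K]
    (hc : constDeg k K = 1) {P : ℤ[X]} (hP : IsZetaNumRel k K P) {h : K}
    (hh : ∀ x : k, h ≠ algebraMap k K x) :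
    OrderIs k ℓ (p ^ ν + 1) h (((ℓ - 1 : ℕ) : ℤ) * (2 * mu ℓ P + ((poleSum ℓ k h : ℤ) - 1) +
      ((zeroSum ℓ k h : ℤ) - 1) + ∑ c ∈ nthRootsFinset (p ^ ν + 1) (1 : k),
        ((zeroSum ℓ k (h - algebraMap k K c) : ℤ) - 1) + ((p ^ ν : ℕ) - 1 : ℤ))) := by
  haveI : Fact ℓ.Prime := ⟨hℓ⟩
  have hdc : p ^ ν + 1 ∣ Nat.card k - 1 := dvd_card hcard
  obtain ⟨ω, hω⟩ := exists_primitive hdc
  obtain ⟨m, hm⟩ := hd
  have hm0 : 0 < m := by
    rcases Nat.eq_zero_or_pos m with h0 | h0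
    · rw [h0, mul_zero] at hm
      omega
    · exact h0
  have hdiv : (p ^ ν + 1) / ℓ = m := by
    rw [hm, Nat.mul_div_cancel_left _ hℓ.pos]
  have hq : ℓ ∣ Nat.card k - 1 := (Dvd.intro m hm.symm).trans hdc
  have h1 := leg_order hq hP hc hm0 hh
  have h2 := zeroSum_roots (l := ℓ) (d := ℓ * m) (Nat.mul_pos hℓ.pos hm0) (hm ▸ hω) hh
  unfold OrderIs
  rw [hdiv]
  have hcardR : (nthRootsFinset (p ^ ν + 1) (1 : k)).card = p ^ ν + 1 :=
    hω.card_nthRootsFinset
  rw [← hm] at h1 h2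
  rw [h2] at h1
  refine ⟨h1.1, ?_⟩
  have e : (((ℓ - 1 : ℕ) : ℤ) * (2 * mu ℓ P + ((poleSum ℓ k h : ℤ) - 1) +
      ((zeroSum ℓ k h : ℤ) - 1) + ∑ c ∈ nthRootsFinset (p ^ ν + 1) (1 : k),
        ((zeroSum ℓ k (h - algebraMap k K c) : ℤ) - 1) + ((p ^ ν : ℕ) - 1 : ℤ))) =
      (((ℓ - 1 : ℕ) : ℤ) * (2 * mu ℓ P + ((poleSum ℓ k h : ℤ) - 1) +
        ((zeroSum ℓ k h : ℤ) - 1) + ((((∑ c ∈ nthRootsFinset (p ^ ν + 1) (1 : k),
          zeroSum ℓ k (h - algebraMap k K c) : ℕ)) : ℤ) - 2))) := by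
    rw [Finset.sum_sub_distrib, Finset.sum_const, hcardR, nsmul_eq_mul, mul_one]
    push_cast
    ring
  rw [e]
  exact h1.2

/-- the case of equality -/
theorem total {ℓ p ν : ℕ} (hℓ : ℓ.Prime) (hodd : ℓ ≠ 2) (hp : p.Prime) (hν : 1 ≤ ν)
    (hd : ℓ ∣ p ^ ν + 1) {k : Type} [Field k] [Finite k] {n : ℕ}
    (hcard : Nat.card k = p ^ (2 * ν * n)) {K : Type} [Field K] [Algebra k K] [FF.IsFF k K]
    (hc : constDeg k K = 1) (hcl : ¬ ℓ ∣ S.classNumber k K) {h : K}
    (hh : ∀ x : k, h ≠ algebraMap k K x) (hT : IsTotal ℓ (p ^ ν + 1) k h) :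
    RankAndOrder k ℓ (p ^ ν + 1) h ((ℓ - 1) * (p ^ ν - 1)) := by
  classical
  obtain ⟨P, hP, -, hmu⟩ := exists_numerator (k := k) (K := K) hℓ
  have h0 : h ≠ 0 := by
    rintro rfl
    exact hh 0 (map_zero _).symm
  have hdc : p ^ ν + 1 ∣ Nat.card k - 1 := dvd_card hcard
  obtain ⟨ω, hω⟩ := exists_primitive hdc
  have hcardR : (nthRootsFinset (p ^ ν + 1) (1 : k)).card = p ^ ν + 1 :=
    hω.card_nthRootsFinset
  constructor
  · have h1 := rank_ge hℓ hodd hp hν hd hcard h0 (not_root hc hh (by omega))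
      (nthRootsFinset (p ^ ν + 1) (1 : k)) (fun c hc' => by
        have h2 := (mem_nthRootsFinset (by omega) (1 : k)).1 hc'
        exact ⟨h2, (hT.root c h2).2⟩)
    rw [hcardR] at h1
    have e : p ^ ν + 1 - 2 = p ^ ν - 1 := by omega
    rwa [e] at h1
  · have h1 := order_is hℓ hp hν hd hcard hc hP hh
    rw [hmu.2 hcl, hT.pole, hT.zero] at h1
    have h2 : ∑ c ∈ nthRootsFinset (p ^ ν + 1) (1 : k),
        ((zeroSum ℓ k (h - algebraMap k K c) : ℤ) - 1) = 0 := by
      refine Finset.sum_eq_zero fun c hc' => ?_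
      have h2 := (mem_nthRootsFinset (by omega) (1 : k)).1 hc'
      rw [(hT.root c h2).1]
      norm_num
    rw [h2] at h1
    have e : (((ℓ - 1) * (p ^ ν - 1) : ℕ) : ℤ) = ((ℓ - 1 : ℕ) : ℤ) * (2 * ((0 : ℕ) : ℤ) +
        (((1 : ℕ) : ℤ) - 1) + (((1 : ℕ) : ℤ) - 1) + 0 + ((p ^ ν : ℕ) - 1 : ℤ)) := by
      have h3 : 1 ≤ p ^ ν := Nat.one_le_pow _ _ hp.pos
      rw [Nat.cast_mul, Nat.cast_sub h3]
      push_cast
      ring
    rw [e]
    exact h1

theorem holds_of {p ν : ℕ} (hp : p.Prime) (hν : 1 ≤ ν)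
    (hd : 3 ∣ p ^ ν + 1) {k : Type} [Field k] [Finite k] (h6 : (6 : k) ≠ 0) {n : ℕ}
    (hcard : Nat.card k = p ^ (2 * ν * n)) {h : k[X]} (hg : Good 3 (p ^ ν + 1) h) {D : k[X]}
    (hs : Squarefree D) (ho : Odd D.natDegree) (hno : ¬ DH.HasForm D.natDegree D)
    (h1 : ¬ SplitsIn h D) (h2 : ∀ c : k, c ^ (p ^ ν + 1) = 1 → ¬ SplitsIn (h - C c) D) :
    HoldsOver 3 (p ^ ν + 1) h ((3 - 1) * (p ^ ν - 1)) D := by
  classical
  intro M _ _ _ _ hM
  obtain ⟨hcf, θ, hθ, htop⟩ := hM
  have hFFM : FF.IsFF k M := ⟨hcf.essFiniteType, hcf.trdeg_eq_one⟩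
  have hcM := Pool.Agent.TH958.T4.constDeg_eq_one hcf.algClosed
  obtain ⟨hns, hfd, hgal, hfr⟩ := quad_setup h6 ho hθ htop
  have h3 : ¬ 3 ∣ S.classNumber k M := fun h => hno (DH.form_of_class (L := M) h6 hs ho hθ hfr h)
  obtain ⟨hirr, hdeg, hroot⟩ := hg
  have hpos : 0 < h.natDegree := hirr.natDegree_pos
  refine ⟨h3, total Nat.prime_three (by decide) hp hν hd hcard hcM h3
    (fun x => over_ne hpos x) ⟨?_, ?_, fun c hc => ?_⟩⟩
  · exact over_pole h6 Nat.prime_three (by decide) hs ho hθ htop hpos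
  · have e : h - C (0 : k) = h := by rw [C_0, sub_zero]
    have h4 := (over_zero h6 Nat.prime_three (by decide) hs ho hθ htop (h := h) (c := 0)
      (by rw [e]; exact hirr) (by rw [e]; exact hdeg) (by rw [e]; exact h1)).1
    rw [map_zero, sub_zero] at h4
    exact h4
  · exact over_zero h6 Nat.prime_three (by decide) hs ho hθ htop (hroot c hc)
      (by rw [natDegree_sub_C]; exact hdeg) (h2 c hc)

end proof

/-- Let `ℓ` be an odd prime, `p` a prime and `ν ≥ 1` with `ℓ ∣ d = p ^ ν + 1`, and let `k` be a finite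
field with `p ^ (2 ν n)` elements.

(1) Let `K` be the function field of a curve over `k`, of any genus, and `h` in `K` not a constant. Let
`J` be the Jacobian of `y ^ ℓ = x ^ (ℓ - 1) (x + 1) (x + h ^ d)` over `K`. If there are `r` values `c`
in `k` with `c ^ d = 1` such that `h - c` has a zero of order not divisible by `ℓ`, then `J(K)` has
`(ℓ - 1) (r - 2)` linearly independent elements. The order of vanishing of `L(T, J)` modulo `ℓ` is
`ℓ - 1` times `2 μ + (p(∞) - 1) + (p(0) - 1) + ∑ (p(c) - 1) + (p ^ ν - 1)`, the sum over the `c` with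
`c ^ d = 1`. Here `p(c)` is the sum of `ℓ ^ v_ℓ(deg v)` over the places `v` where `h` has the value `c`,
and `μ` is the multiplicity of the root `1` modulo `ℓ` of the numerator of the zeta function of `K`,
which is zero if and only if the class number of `K` is prime to `ℓ`. If the class number is prime to
`ℓ` and `h` is total (`IsTotal`), then `J(K)` has `(ℓ - 1) (p ^ ν - 1)` linearly independent elements,
and `L(T, J)` vanishes at `T = 1 / |k|` to order at most `(ℓ - 1) (p ^ ν - 1)`.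

(2) Let `ℓ = 3`, `p ≥ 5`, and let `h` be a polynomial over `k` such that `h` and the `h - c` with
`c ^ d = 1` are irreducible of degree prime to three. The squarefree polynomials `D` of odd degree
`n` such that `h` and these `h - c` do not split in `M = k(t)(√D)` are a positive proportion of all the
polynomials of degree `n`. For at least half of them (precisely: at least `1 / 2 - ε` of them, for all
`ε > 0` and `n ≥ n(ε)`) the class number of `M` is prime to three, the Jacobian of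
`y ^ 3 = x ^ 2 (x + 1) (x + h ^ d)` over `M` has `2 (p ^ ν - 1)` linearly independent rational
points and its `L`-function vanishes at `T = 1 / |k|` to order at most `2 (p ^ ν - 1)`.

(3) There are such `p`, `ν`, `k` with `2 (p ^ ν - 1)` arbitrarily large, and for them such `h` of
arbitrarily large degree. -/
theorem result :
    (∀ ℓ p ν : ℕ, ℓ.Prime → ℓ ≠ 2 → p.Prime → 1 ≤ ν → ℓ ∣ p ^ ν + 1 →
      ∀ (k : Type) [Field k] [Finite k] (n : ℕ), Nat.card k = p ^ (2 * ν * n) →
      ∀ (K : Type) [Field K] [Algebra k K], IsCurveField k K →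
      ∀ h : K, (∀ x : k, h ≠ algebraMap k K x) →
        (∀ B : Finset k, (∀ c ∈ B, c ^ (p ^ ν + 1) = 1 ∧ TakesValue ℓ h c) →
          JacRankGE K ℓ (h ^ (p ^ ν + 1)) ((ℓ - 1) * (B.card - 2))) ∧
        (∃ P : ℤ[X], IsNumerator k K P ∧ (mu ℓ P = 0 ↔ ¬ ℓ ∣ S.classNumber k K) ∧
          OrderIs k ℓ (p ^ ν + 1) h (((ℓ - 1 : ℕ) : ℤ) * (2 * mu ℓ P +
            ((poleSum ℓ k h : ℤ) - 1) + ((zeroSum ℓ k h : ℤ) - 1) +
            ∑ c ∈ nthRootsFinset (p ^ ν + 1) (1 : k),
              ((zeroSum ℓ k (h - algebraMap k K c) : ℤ) - 1) + ((p ^ ν : ℕ) - 1 : ℤ)))) ∧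
        (¬ ℓ ∣ S.classNumber k K → IsTotal ℓ (p ^ ν + 1) k h →
          RankAndOrder k ℓ (p ^ ν + 1) h ((ℓ - 1) * (p ^ ν - 1)))) ∧
    (∀ p ν : ℕ, p.Prime → 5 ≤ p → 1 ≤ ν → 3 ∣ p ^ ν + 1 →
      ∀ (k : Type) [Field k] [Finite k] (n : ℕ), Nat.card k = p ^ (2 * ν * n) →
      ∀ h : k[X], Good 3 (p ^ ν + 1) h →
        (∃ c : ℝ, 0 < c ∧ ∀ᶠ m : ℕ in atTop, Odd m →
          c * (Nat.card k : ℝ) ^ m ≤ ((Bases (p ^ ν + 1) h m).ncard : ℝ)) ∧
        ∀ ε : ℝ, 0 < ε → ∀ᶠ m : ℕ in atTop, Odd m →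
          (1 / 2 - ε) * ((Bases (p ^ ν + 1) h m).ncard : ℝ) ≤
            (({D ∈ Bases (p ^ ν + 1) h m |
              HoldsOver 3 (p ^ ν + 1) h (2 * (p ^ ν - 1)) D}.ncard : ℕ) : ℝ)) ∧
    (∀ R : ℕ, ∃ p ν : ℕ, p.Prime ∧ 5 ≤ p ∧ 1 ≤ ν ∧ 3 ∣ p ^ ν + 1 ∧ R ≤ 2 * (p ^ ν - 1) ∧
      ∃ (k : Type) (_ : Field k) (_ : Finite k) (n : ℕ), Nat.card k = p ^ (2 * ν * n) ∧
        ∀ N : ℕ, ∃ h : k[X], N ≤ h.natDegree ∧ Good 3 (p ^ ν + 1) h) := by
  classical
  refine ⟨?_, ?_, ?_⟩
  · intro ℓ p ν hℓ hodd hp hν hd k _ _ n hcard K _ _ hK h hh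
    have hFF : FF.IsFF k K := ⟨hK.essFiniteType, hK.trdeg_eq_one⟩
    have hc := Pool.Agent.TH958.T4.constDeg_eq_one hK.algClosed
    have h0 : h ≠ 0 := by
      rintro rfl
      exact hh 0 (map_zero _).symm
    refine ⟨fun B hB => rank_ge hℓ hodd hp hν hd hcard h0 (not_root hc hh (by omega)) B hB,
      ?_, fun hcl hT => total hℓ hodd hp hν hd hcard hc hcl hh hT⟩
    obtain ⟨P, hP, hP', hmu⟩ := exists_numerator (k := k) (K := K) hℓ
    exact ⟨P, hP', hmu, order_is hℓ hp hν hd hcard hc hP hh⟩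
  · intro p ν hp hp5 hν hd k _ _ n hcard h hg
    have hdpos : 0 < p ^ ν + 1 := by omega
    haveI : Fact p.Prime := ⟨hp⟩
    haveI : CharP k p := Pool.Agent.TH958.SJ.charP_of_card hp hcard
    have h6 : (6 : k) ≠ 0 := by
      intro h6
      have h7 : ((6 : ℕ) : k) = 0 := by exact_mod_cast h6
      rw [CharP.cast_eq_zero_iff k p] at h7
      have h8 := Nat.le_of_dvd (by norm_num) h7
      interval_cases p
      · norm_num at h7
      · norm_num at hp
    set Q : Finset k[X] := insert h ((nthRootsFinset (p ^ ν + 1) (1 : k)).image fun c => h - C c)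
      with hQ
    have hQi : ∀ P ∈ Q, Irreducible P := by
      intro P hP
      rw [hQ, Finset.mem_insert, Finset.mem_image] at hP
      rcases hP with rfl | ⟨c, hc, rfl⟩
      · exact hg.1
      · exact hg.2.2 c ((mem_nthRootsFinset hdpos (1 : k)).1 hc)
    have e : ∀ m, Bases (p ^ ν + 1) h m = NonSplitPoly Q m := by
      intro m
      ext D
      unfold Bases NonSplitPoly
      rw [Set.mem_setOf_eq, Set.mem_setOf_eq]
      refine and_congr_right fun _ => and_congr_right fun _ => ?_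
      rw [hQ, Finset.forall_mem_insert, Finset.forall_mem_image]
      refine and_congr_right fun _ => ?_
      exact ⟨fun h1 c hc => h1 c ((mem_nthRootsFinset hdpos (1 : k)).1 hc),
        fun h1 c hc => h1 ((mem_nthRootsFinset hdpos (1 : k)).2 hc)⟩
    obtain ⟨h1, h2⟩ := nonsplitPoly_count h6 hQi
    constructor
    · simp only [e]
      exact h1
    · intro ε hε
      filter_upwards [h2 ε hε] with m hm ho
      rw [e]
      refine (hm ho).trans ?_
      have hfin : (NonSplitPoly Q m).Finite := by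
        refine (Pool.Agent.N874.DH.Eng.fin_deg Pool.Agent.N874.DH.cnt m).subset ?_
        rintro D ⟨h1, h2, -⟩
        exact ⟨h2.ne_zero, h1⟩
      have hsub : {D ∈ NonSplitPoly Q m | ¬ Pool.Agent.N874.DH.HasForm m D} ⊆
          {D ∈ NonSplitPoly Q m | HoldsOver 3 (p ^ ν + 1) h (2 * (p ^ ν - 1)) D} := by
        rintro D ⟨hD, hno⟩
        refine ⟨hD, ?_⟩
        rw [← e] at hD
        obtain ⟨e1, e2, e3, e4⟩ := hD
        exact holds_of hp hν hd h6 hcard hg e2 (by rw [e1]; exact ho) (by rw [e1]; exact hno)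
          e3 e4
      exact_mod_cast Set.ncard_le_ncard hsub (hfin.subset (Set.sep_subset _ _))
  · intro R
    obtain ⟨p, hp, hd, hR⟩ := Pool.Agent.TH958.SJ.exists_large Nat.prime_three (by decide)
      (R + 100)
    have hR' : R + 100 ≤ 2 * (p ^ 1 - 1) := hR
    have hp5 : 5 ≤ p := by
      rw [pow_one] at hR'
      omega
    refine ⟨p, 1, hp, hp5, le_rfl, hd, by omega, ?_⟩
    exact Pool.Agent.TH958.SJ.exists_good Nat.prime_three hp le_rfl hd

end Pool.Agent.Results.MP_60d5ce_nt.LegendreBases
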