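import Pool.Agent.J6H43.SE.Tw
import Pool.Agent.J6H43.SE.Non

/-!
# Quadratic twists of superelliptic Jacobians

Let `K` be the function field of a curve over the finite field `k` with `q` elements, `l` an odd prime
divisor of `q - 1`, and `K(√x)` a quadratic extension with class number prime to `l`. Over every
subfield `L` of a Galois extension of `K` of degree a power of `l` in which no place ramifies that
splits in `K(√x)`, the order of vanishing of the `L`-functions of the quadratic twists by `x` of the
Jacobians of all the curves `y ^ N = ∏ (x - a i) ^ e i`, `N` a power of `l`, with `a i` in `L` is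
bounded in terms of the places of bad reduction which split in `L(√x)`. For `K = k(t)` and `l = 3` the
assumption holds for at least half of the squarefree polynomials, also with local conditions.
-/

set_option autoImplicit false
set_option linter.all false
set_option maxHeartbeats 4000000

open Polynomial Filter Pool.Agent.J6H43.SE
open Pool.Agent.W343.BSD hiding mu

namespace Pool.Agent.Results.MP_60d5ce_nt.SuperellipticTwists

section defs

variable {k K : Type} [Field k] [Field K] [Algebra k K]

/-- The element `x` is a square in the completion of `K` at `v`: if `x` is not a square in `K`, then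
`v` splits in `K(√x)`. -/
def Splits (v : FF.Place k K) (x : K) : Prop :=
  ∃ s : K, x = s ^ 2 ∨ v.ord x < v.ord (x - s ^ 2)

open Classical in
/-- The quadratic character of `K(√x)` at the place `v`: zero if the valuation of `x` is odd (so that
`v` is ramified), one if `v` splits and minus one otherwise. -/
noncomputable def character (x : K) (v : FF.Place k K) : ℤ :=
  if Odd (v.ord x) then 0 else if Splits v x then 1 else -1

/-- `M` is the function field of a curve over `k` and is `K(√x)`. -/
def IsQuadField (k K M : Type) [Field k] [Field K] [Field M] [Algebra k M] [Algebra K M] (x : K) :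
    Prop :=
  IsCurveField k M ∧ ∃ θ : M, θ ^ 2 = algebraMap K M x ∧ IntermediateField.adjoin K {θ} = ⊤

/-- `L'` is a Galois extension of `K` of degree a power of `l` in which the places of `K` in `T` are
not ramified. -/
def IsPowerExtension (l : ℕ) (k K L' : Type) [Field k] [Field K] [Field L'] [Algebra k K]
    [Algebra k L'] [Algebra K L'] (T : Set (FF.Place k K)) : Prop :=
  FiniteDimensional K L' ∧ IsGalois K L' ∧ (∃ n : ℕ, Module.finrank K L' = l ^ n) ∧
    ∀ v ∈ T, ∀ (w : FF.Place k L') (e : ℕ), 0 < e →
      (∀ x : K, w.ord (algebraMap K L' x) = e * v.ord x) → e = 1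

/-- The field `L` is contained in a Galois extension of `K` of degree a power of `l` in which the
places of `K` in `T` are not ramified. -/
def InPowerExtension (l : ℕ) (k K L : Type) [Field k] [Field K] [Field L] [Algebra k K]
    [Algebra k L] [Algebra K L] (T : Set (FF.Place k K)) : Prop :=
  ∃ (L' : Type) (_ : Field L') (_ : Algebra k L') (_ : Algebra K L') (_ : Algebra L L'),
    IsScalarTower k K L' ∧ IsScalarTower K L L' ∧ IsPowerExtension l k K L' T

open Classical in
/-- The bound for the order of vanishing modulo `l` of the `L`-functions of the twists by `x` of the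
Jacobians of the curves `y ^ N = ∏ (x - a i) ^ e i` over `K`, `N = l ^ s`, without the Euler factors at
the places in `A`: it is `N - 1` times the sum over the bad places `v` which split in `K(√x)` of
`drop v * l ^ v_l(deg v)`. -/
def TwistBounds (k K : Type) [Field k] [Field K] [Algebra k K] (l : ℕ) (x : K) : Prop :=
  ∀ (s n : ℕ), 0 < n → ∀ (a : Fin n → K) (e : Fin n → ℕ), Function.Injective a →
    IsExponents l e → ∀ (A T : Finset (FF.Place k K)) (u r : FF.Place k K → K),
      IsModel (l ^ s) a A T u r →
        OrderLE k l (LOutside (l ^ s) A a e u r (character x))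
          (((l ^ s - 1 : ℕ) : ℤ) * ∑ v ∈ T, (if Splits v x then
            ((drop (l ^ s) A a u r v * l ^ padicValNat l (S.deg v) : ℕ) : ℤ) else 0))

/-- Let `T` be a finite set of places of `K` which do not split in `K(√x)`. Then over `L` the order of
vanishing modulo `l` of the `L`-functions of the twists by `x` of the Jacobians of all the curves over
`L` for which the bad places lie over places in `T` is at most zero. -/
def VanishingBounds (k : Type) {K : Type} (L : Type) [Field k] [Field K] [Field L] [Algebra k K]
    [Algebra k L] [Algebra K L] (l : ℕ) (x : K) : Prop :=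
  ∀ T : Finset (FF.Place k K), (∀ v ∈ T, ¬ Splits v x) →
    ∀ (s n : ℕ), 0 < n → ∀ (a : Fin n → L) (e : Fin n → ℕ), Function.Injective a →
      IsExponents l e → ∀ (A' T' : Finset (FF.Place k L)) (u r : FF.Place k L → L),
        IsModel (l ^ s) a A' T' u r →
        (∀ w ∈ T', ∃ v ∈ T, ∃ e : ℕ, 0 < e ∧ ∀ z : K, w.ord (algebraMap K L z) = e * v.ord z) →
        OrderLE k l (LOutside (l ^ s) A' a e u r (character (algebraMap K L x))) 0

/-- The bounds hold over all fields `L` contained in a Galois extension of `K` of degree a power of
`l` in which no place ramifies which splits in `K(√x)`. -/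
def Controls (k K : Type) [Field k] [Field K] [Algebra k K] (l : ℕ) (x : K) : Prop :=
  ∀ (L : Type) [Field L] [Algebra k L] [Algebra K L] [IsScalarTower k K L],
    InPowerExtension l k K L {v | Splits v x} →
      TwistBounds k L l (algebraMap K L x) ∧ VanishingBounds k L l x

/-- The squarefree polynomials `D` of degree `n` such that the places in `B` do not split in
`k(t)(√D)`. -/
def Twists {k : Type} [Field k] (B : Finset (FF.Place k (RatFunc k))) (n : ℕ) : Set k[X] :=
  {D | D.natDegree = n ∧ Squarefree D ∧ ∀ v ∈ B, ¬ Splits v (algebraMap k[X] (RatFunc k) D)}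

end defs

section proof

open Pool.Agent.R427 Pool.Agent.N874

theorem exp_ne {l n : ℕ} {e : Fin n → ℕ} (he : IsExponents l e) (i : Fin n) : e i ≠ 0 := by
  intro h
  exact he.1 i (by rw [h]; exact dvd_zero _)

theorem bounds_of {k K : Type} [Field k] [Finite k] [Field K] [Algebra k K] [FF.IsFF k K] {l : ℕ}
    (hl : l.Prime) (hodd : l ≠ 2) (hq : l ∣ Nat.card k - 1) {x : K} (h : TW.NRel l k x) :
    TwistBounds k K l x := by
  classical
  haveI : Fact l.Prime := ⟨hl⟩
  intro s n hn a e _ he A T u r hM
  have h1 := twist_bound hodd hq h (s := s) hn A T hM.subset a (exp_ne he) u r hM.good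
  have e1 : (character x : FF.Place k K → ℤ) = fun v => TH639.B3.chi v x := rfl
  have e2 : ∑ v ∈ T, (if Splits v x then
      ((drop (l ^ s) A a u r v * l ^ padicValNat l (S.deg v) : ℕ) : ℤ) else 0) =
      ∑ v ∈ T, (if TH639.B3.LocSq v x then
        ((drop (l ^ s) A a u r v * l ^ padicValNat l v.deg : ℕ) : ℤ) else 0) :=
    Finset.sum_congr rfl fun v _ => by rw [S.deg_eq]; rfl
  rw [e1, e2]
  convert h1

theorem controls_of {k K : Type} [Field k] [Finite k] [Field K] [Algebra k K] [FF.IsFF k K]
    (h6 : (6 : k) ≠ 0) {l : ℕ} (hl : l.Prime) (hodd : l ≠ 2) (hq : l ∣ Nat.card k - 1) {x : K}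
    (hx : x ≠ 0) (h : TW.NRel l k x) : Controls k K l x := by
  classical
  haveI : Fact l.Prime := ⟨hl⟩
  intro L _ _ _ _ hL
  obtain ⟨L', i1, i2, i3, i4, t1, t2, hfd, hgal, ⟨N, hN⟩, hram⟩ := hL
  obtain ⟨ζ, hζ⟩ := TW.exists_prim (k := k) hl hq
  have hlo : Odd l := hl.odd_of_ne_two hodd
  have hlk : ((l : ℕ) : k) ≠ 0 := ne_zero_of_dvd hl hq
  have hfdL : FiniteDimensional L L' := Module.Finite.of_restrictScalars_finite K L L'
  have hfdKL : FiniteDimensional K L := Module.Finite.left K L L'
  obtain ⟨n, -, hn⟩ : ∃ n ≤ N, Module.finrank K L = l ^ n := by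
    rw [← Nat.dvd_prime_pow hl, ← hN, ← Module.finrank_mul_finrank K L L']
    exact dvd_mul_right _ _
  have hNR : TW.NRel l k (algebraMap K L x) := by
    refine TW.rel_sub hlo h6 hlk hζ n K L L' N hN hn x hx ?_ h
    rintro v ⟨w, e, hov, he⟩ h1
    exact he (hram v (TW.chi_one_iff.1 h1) w e hov.1 hov.2)
  have hFFL : FF.IsFF k L := isFF_of_finite (K := K)
  have hB := bounds_of hl hodd hq hNR
  refine ⟨hB, ?_⟩
  intro T hT s n hn a e ha he A' T' u r hM hT'
  have h1 := hB s n hn a e ha he A' T' u r hM
  have h2 : ∑ v ∈ T', (if Splits v (algebraMap K L x) then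
      ((drop (l ^ s) A' a u r v * l ^ padicValNat l (S.deg v) : ℕ) : ℤ) else 0) = 0 := by
    refine Finset.sum_eq_zero fun w hw => ?_
    obtain ⟨v, hv, e', he', hov⟩ := hT' w hw
    rw [if_neg]
    intro hs
    have h3 := TW.chi_sub (L' := L') h6 (by rw [hN]; exact hlo.pow) hx
      (w := w) (v := v) (e := e') ⟨he', hov⟩
    rw [TW.chi_one_iff.2 hs] at h3
    exact hT v hv (TW.chi_one_iff.1 h3.symm)
  rw [h2, mul_zero] at h1
  exact h1

theorem twists_eq {k : Type} [Field k] (B : Finset (FF.Place k (RatFunc k))) (n : ℕ) :
    Twists B n = NonSplit B n := rfl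

end proof

/-- Let `k` be a finite field with `q` elements, `q` prime to six.

(1) Let `K` be the function field of a curve over `k`, `l` an odd prime divisor of `q - 1`, `x` in `K`
not a square, such that `M = K(√x)` is also the function field of a curve over `k`, with class number
prime to `l`. Then for all fields `L` contained in a Galois extension of `K` of degree a power of `l`
in which the places that split in `M` do not ramify, all powers `N` of `l`, and all curves
`C : y ^ N = ∏ (x - a i) ^ e i` over `L` with different `a i` in `L` and exponents `e i` which, and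
whose sum, are prime to `l`, the order of vanishing modulo `l` of the `L`-function of the twist by `x`
of the Jacobian of `C` is at most `N - 1` times a sum over the places of bad reduction which split in
`L(√x)`. In particular it is at most zero, and so the `L`-function does not vanish at `s = 1`, if the
places of bad reduction lie over places of `K` which do not split in `K(√x)`.

(2) Let `q` be congruent to one modulo three and let `B` be a finite set of places of `k(t)`. The
squarefree polynomials `D` of odd degree `n` such that the places in `B` do not split in `k(t)(√D)` are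
a positive proportion of all the polynomials of degree `n`, and for at least half of them (precisely:
at least `1 / 2 - ε` of them, for all `ε > 0` and `n ≥ n(ε)`) the statements of (1) hold with
`K = k(t)`, `l = 3` and `x = D`: for all `L`, `N` and `C` at once. In particular, the twists by `D` of
the Jacobians of all the curves with bad reduction only over `B` have `L`-functions which do not
vanish at `s = 1`, for all `L`. -/
theorem result (k : Type) [Field k] [Finite k] (h6 : (6 : k) ≠ 0) :
    (∀ (K M : Type) [Field K] [Algebra k K] [Field M] [Algebra k M] [Algebra K M]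
      [IsScalarTower k K M], IsCurveField k K → ∀ l : ℕ, l.Prime → l ≠ 2 → l ∣ Nat.card k - 1 →
      ∀ x : K, (∀ s : K, x ≠ s ^ 2) → IsQuadField k K M x → ¬ l ∣ S.classNumber k M →
        Controls k K l x) ∧
    (3 ∣ Nat.card k - 1 → ∀ B : Finset (FF.Place k (RatFunc k)),
      (∃ c : ℝ, 0 < c ∧ ∀ᶠ n : ℕ in atTop, Odd n →
        c * (Nat.card k : ℝ) ^ n ≤ ((Twists B n).ncard : ℝ)) ∧
      ∀ ε : ℝ, 0 < ε → ∀ᶠ n : ℕ in atTop, Odd n →
        (1 / 2 - ε) * ((Twists B n).ncard : ℝ) ≤
          (({D ∈ Twists B n |
            Controls k (RatFunc k) 3 (algebraMap k[X] (RatFunc k) D)}.ncard : ℕ) : ℝ)) := by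
  classical
  refine ⟨?_, ?_⟩
  · intro K M _ _ _ _ _ _ hK l hl hodd hq x hns hM hcl
    haveI : Fact l.Prime := ⟨hl⟩
    have hFF : FF.IsFF k K := ⟨hK.essFiniteType, hK.trdeg_eq_one⟩
    have hcK := Pool.Agent.TH958.T4.constDeg_eq_one hK.algClosed
    obtain ⟨hcf, θ, hθ, htop⟩ := hM
    have hFFM : FF.IsFF k M := ⟨hcf.essFiniteType, hcf.trdeg_eq_one⟩
    have hcM := Pool.Agent.TH958.T4.constDeg_eq_one hcf.algClosed
    have hx : x ≠ 0 := by
      rintro rfl
      exact hns 0 (by ring)
    exact controls_of h6 hl hodd hq hx
      (Pool.Agent.R427.TW.nrel_of_class h6 hx hns hθ htop hcK hcM hcl)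
  · intro hq B
    obtain ⟨h1, h2⟩ := nonsplit_count h6 B
    constructor
    · exact h1
    · intro ε hε
      filter_upwards [h2 ε hε] with n hn ho
      refine (hn ho).trans ?_
      have hfin : (NonSplit B n).Finite := by
        refine (Pool.Agent.N874.DH.Eng.fin_deg Pool.Agent.N874.DH.cnt n).subset ?_
        rintro D ⟨h1, h2, -⟩
        exact ⟨h2.ne_zero, h1⟩
      have hsub : {D ∈ NonSplit B n | ¬ Pool.Agent.N874.DH.HasForm n D} ⊆
          {D ∈ Twists B n | Controls k (RatFunc k) 3 (algebraMap k[X] (RatFunc k) D)} := by
        rintro D ⟨hD, hno⟩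
        obtain ⟨e1, e2, e3⟩ := hD
        have ho' : Odd D.natDegree := by rw [e1]; exact ho
        have hFF : FF.IsFF k (RatFunc k) := (Pool.Agent.W309.RK.sb k).1
        refine ⟨⟨e1, e2, e3⟩, ?_⟩
        exact controls_of h6 Nat.prime_three (by decide) hq (Pool.Agent.W309.RF.A_ne e2.ne_zero)
          (Pool.Agent.N874.DH.nrel_of_noForm h6 e2 ho' (by rw [e1]; exact hno))
      exact_mod_cast Set.ncard_le_ncard hsub (hfin.subset (Set.sep_subset _ _))

end Pool.Agent.Results.MP_60d5ce_nt.SuperellipticTwists
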